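import Pool.Agent.Q21.PR.Pow

/-!
# Brauer characters versus class numbers of p'-subgroups

The inequality `ℓ_p(G) ≤ max {k(H) : H ≤ G, p ∤ |H|}` fails for `p = 3` and a group of order
92160; its direct powers show that it fails by arbitrarily large factors.
-/

set_option autoImplicit false

namespace Pool.Agent.Results.MP_58d2c7_al.Counterexample

open Pool.Agent.Q21.PR

theorem result (m : ℕ) :
    ∃ (G : Type) (_ : Group G) (_ : Finite G), Nat.card G = 92160 ^ m ∧
      362 ^ m ≤ Nat.card {c : ConjClasses G // ∀ g ∈ c.carrier, ¬ 3 ∣ orderOf g} ∧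
      ∀ H : Subgroup G, ¬ 3 ∣ Nat.card H → Nat.card (ConjClasses H) ≤ 359 ^ m :=
  exists_pow m

end Pool.Agent.Results.MP_58d2c7_al.Counterexample
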